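import Mathlib

/-!
# Complete bipartite graphs that lie in no matroidal family

If a matroidal family of graphs contains `K_{m,n}`, then adding a vertex to a large complete graph
raises the rank by at most `m - 1`, while many disjoint copies of `K_{m,n}` minus an edge are
independent.  Comparing the two counts gives `n ≤ m² - m + 1`.  So no matroidal family contains
`K_{m,n}` as soon as `n > m² - m + 1`, for instance `K_{3,8}`.
-/

namespace Pool.Agent.Results.MP_41a700_co.NoKmn

open Set

/-- Edge sets of the subgraphs of `G` isomorphic to a member of the family `P`.  A finite graph is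
given, up to isomorphism, on a vertex set `Fin k`; a subgraph isomorphic to `H` is the image of
`H` under an injective map of the vertices which maps edges to edges of `G`. -/
def circuitSets (P : ∀ k : ℕ, Set (SimpleGraph (Fin k))) {V : Type} (G : SimpleGraph V) :
    Set (Set (Sym2 V)) :=
  {C | ∃ (k : ℕ) (H : SimpleGraph (Fin k)) (f : Fin k ↪ V),
    H ∈ P k ∧ H.map f ≤ G ∧ C = (H.map f).edgeSet}

/-- Matroidal families of (finite, simple, connected) graphs. -/
structure IsMatroidalFamily (P : ∀ k : ℕ, Set (SimpleGraph (Fin k))) : Prop where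
  nonempty : ∃ (k : ℕ) (H : SimpleGraph (Fin k)), H ∈ P k
  connected : ∀ (k : ℕ) (H : SimpleGraph (Fin k)), H ∈ P k → H.Connected
  iso_closed : ∀ (k : ℕ) (H H' : SimpleGraph (Fin k)), H ∈ P k → Nonempty (H ≃g H') → H' ∈ P k
  isMatroid : ∀ (V : Type) [Finite V] (G : SimpleGraph V), ∃ M : Matroid (Sym2 V),
    M.E = G.edgeSet ∧ ∀ C : Set (Sym2 V), M.IsCircuit C ↔ C ∈ circuitSets P G

/-- The graph `G` is (isomorphic to) a member of the family. -/
def Contains (P : ∀ k : ℕ, Set (SimpleGraph (Fin k))) {W : Type} (G : SimpleGraph W) : Prop :=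
  ∃ (k : ℕ) (H : SimpleGraph (Fin k)), H ∈ P k ∧ Nonempty (H ≃g G)

/-- Edges of the copy of `K_{m,n}` placed by `g`. -/
def copyEdges {V : Type} {m n : ℕ} (g : Fin m ⊕ Fin n → V) : Set (Sym2 V) :=
  {e | ∃ i j, e = s(g (Sum.inl i), g (Sum.inr j))}

theorem copy_mem {P : ∀ k : ℕ, Set (SimpleGraph (Fin k))} {V : Type} {m n : ℕ}
    (hK : Contains P (completeBipartiteGraph (Fin m) (Fin n))) (g : Fin m ⊕ Fin n ↪ V) :
    copyEdges g ∈ circuitSets P (⊤ : SimpleGraph V) := by
  obtain ⟨k, H, hH, ⟨φ⟩⟩ := hK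
  refine ⟨k, H, φ.toEquiv.toEmbedding.trans g, hH, le_top, ?_⟩
  ext e
  constructor
  · rintro ⟨i, j, rfl⟩
    rw [SimpleGraph.mem_edgeSet, SimpleGraph.map_adj]
    refine ⟨φ.symm (Sum.inl i), φ.symm (Sum.inr j), ?_, ?_, ?_⟩
    · rw [← φ.map_adj_iff]
      simp
    · simp
    · simp
  · induction e with
    | _ x y =>
      rw [SimpleGraph.mem_edgeSet, SimpleGraph.map_adj]
      rintro ⟨a, b, hab, rfl, rfl⟩
      rw [← φ.map_adj_iff] at hab
      have e1 : (φ.toEquiv.toEmbedding.trans g) a = g (φ a) := rfl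
      have e2 : (φ.toEquiv.toEmbedding.trans g) b = g (φ b) := rfl
      rw [e1, e2]
      rcases ha : φ a with i | i <;> rcases hb : φ b with j | j
      · rw [ha, hb] at hab; simp at hab
      · exact ⟨i, j, rfl⟩
      · exact ⟨j, i, Sym2.eq_swap⟩
      · rw [ha, hb] at hab; simp at hab

/-- Edges of the complete graph inside `A`. -/
def inEdges {V : Type} (A : Finset V) : Set (Sym2 V) := {e | ¬ e.IsDiag ∧ ∀ x ∈ e, x ∈ A}

section

variable {V : Type} [Finite V] {P : ∀ k : ℕ, Set (SimpleGraph (Fin k))} {m n : ℕ}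
  {M : Matroid (Sym2 V)}

theorem step [DecidableEq V] (hM : M.E = (⊤ : SimpleGraph V).edgeSet)
    (hC : ∀ C : Set (Sym2 V), M.IsCircuit C ↔ C ∈ circuitSets P (⊤ : SimpleGraph V))
    (hm : 1 ≤ m) (hn : 1 ≤ n)
    (hK : Contains P (completeBipartiteGraph (Fin m) (Fin n))) (A : Finset V) (v : V)
    (hv : v ∉ A) (hA : m + n - 1 ≤ A.card) :
    M.eRk (inEdges (insert v A)) ≤ M.eRk (inEdges A) + ((m - 1 : ℕ) : ℕ∞) := by
  obtain ⟨B, hBA, hBc⟩ := Finset.exists_subset_card_eq (s := A) (n := m - 1) (by omega)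
  set star : Set (Sym2 V) := (fun b => s(v, b)) '' (B : Set V) with hstar
  have hstarc : star.encard ≤ ((m - 1 : ℕ) : ℕ∞) := by
    refine (encard_image_le _ _).trans ?_
    rw [encard_coe_eq_coe_finsetCard, hBc]
  have hsubE : inEdges A ∪ star ⊆ M.E := by
    rw [hM]
    rintro e (he | ⟨b, hb, rfl⟩)
    · rw [SimpleGraph.edgeSet_top]
      exact he.1
    · rw [SimpleGraph.mem_edgeSet, SimpleGraph.top_adj]
      rintro rfl
      exact hv (hBA hb)
  have key : inEdges (insert v A) ⊆ M.closure (inEdges A ∪ star) := by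
    intro e he
    by_cases hA' : ∀ x ∈ e, x ∈ A
    · exact M.subset_closure _ hsubE (Or.inl ⟨he.1, hA'⟩)
    · push Not at hA'
      obtain ⟨x, hxe, hxA⟩ := hA'
      have hxv : x = v := by
        have := he.2 x hxe
        rw [Finset.mem_insert] at this
        tauto
      subst hxv
      obtain ⟨w, rfl⟩ := Sym2.mem_iff_exists.1 hxe
      have hwA : w ∈ A := by
        have h1 := he.2 w (Sym2.mem_mk_right _ _)
        rw [Finset.mem_insert] at h1
        rcases h1 with h1 | h1
        · exfalso; apply he.1; rw [h1]; exact rfl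
        · exact h1
      by_cases hwB : w ∈ B
      · exact M.subset_closure _ hsubE (Or.inr ⟨w, hwB, rfl⟩)
      · -- build the copy
        have hc1 : (insert w B).card = m := by
          rw [Finset.card_insert_of_notMem hwB, hBc]; omega
        have hsub1 : insert w B ⊆ A := Finset.insert_subset hwA hBA
        have hc2 : n - 1 ≤ (A \ insert w B).card := by
          rw [Finset.card_sdiff_of_subset hsub1, hc1]; omega
        obtain ⟨D, hDA, hDc⟩ := Finset.exists_subset_card_eq hc2
        have hxD : x ∉ D := fun h => hxA (Finset.mem_sdiff.1 (hDA h)).1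
        have hc3 : (insert x D).card = n := by
          rw [Finset.card_insert_of_notMem hxD, hDc]; omega
        set f1 : Fin m ≃ (insert w B : Finset V) := (Finset.equivFinOfCardEq hc1).symm with hf1
        set f2 : Fin n ≃ (insert x D : Finset V) := (Finset.equivFinOfCardEq hc3).symm with hf2
        have hdisj : ∀ i j, (f1 i : V) ≠ (f2 j : V) := by
          intro i j h
          have h1 := (f1 i).2
          have h2 := (f2 j).2
          rw [h] at h1
          rcases Finset.mem_insert.1 h2 with h3 | h3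
          · rw [h3] at h1
            exact hxA (hsub1 h1)
          · exact (Finset.mem_sdiff.1 (hDA h3)).2 h1
        let g : Fin m ⊕ Fin n ↪ V :=
          ⟨Sum.elim (fun i => (f1 i : V)) (fun j => (f2 j : V)), by
            rintro (i | i) (j | j) h
            · have : (f1 i : V) = f1 j := h
              rw [f1.injective (Subtype.ext this)]
            · exact absurd h (hdisj i j)
            · exact absurd h.symm (hdisj j i)
            · have : (f2 i : V) = f2 j := h
              rw [f2.injective (Subtype.ext this)]⟩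
        have hcirc : M.IsCircuit (copyEdges g) := (hC _).2 (copy_mem hK g)
        have hmem : s(x, w) ∈ copyEdges g := by
          refine ⟨f1.symm ⟨w, Finset.mem_insert_self _ _⟩,
            f2.symm ⟨x, Finset.mem_insert_self _ _⟩, ?_⟩
          have e1 : g (Sum.inl (f1.symm ⟨w, Finset.mem_insert_self _ _⟩)) = w := by
            show ((f1 (f1.symm _)) : V) = w
            rw [Equiv.apply_symm_apply]
          have e2 : g (Sum.inr (f2.symm ⟨x, Finset.mem_insert_self _ _⟩)) = x := by
            show ((f2 (f2.symm _)) : V) = x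
            rw [Equiv.apply_symm_apply]
          rw [e1, e2, Sym2.eq_swap]
        have h1 := hcirc.mem_closure_sdiff_singleton_of_mem hmem
        refine M.closure_subset_closure ?_ h1
        rintro e' ⟨⟨i, j, rfl⟩, hne⟩
        have hi : (f1 i : V) ∈ insert w B := (f1 i).2
        have hj : (f2 j : V) ∈ insert x D := (f2 j).2
        show s((f1 i : V), (f2 j : V)) ∈ _
        have hne' : s((f1 i : V), (f2 j : V)) ≠ s(x, w) := hne
        rcases Finset.mem_insert.1 hj with h2 | h2
        · rw [h2] at hne' ⊢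
          rcases Finset.mem_insert.1 hi with h3 | h3
          · exfalso; apply hne'; rw [h3, Sym2.eq_swap]
          · right
            exact ⟨_, h3, Sym2.eq_swap⟩
        · left
          refine ⟨?_, ?_⟩
          · rw [Sym2.mk_isDiag_iff]
            exact hdisj i j
          · intro y hy
            rw [Sym2.mem_iff] at hy
            rcases hy with rfl | rfl
            · exact hsub1 hi
            · exact (Finset.mem_sdiff.1 (hDA h2)).1
  calc M.eRk (inEdges (insert v A)) ≤ M.eRk (M.closure (inEdges A ∪ star)) := M.eRk_mono key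
    _ = M.eRk (inEdges A ∪ star) := M.eRk_closure_eq _
    _ ≤ M.eRk (inEdges A) + star.encard := M.eRk_union_le_eRk_add_encard _ _
    _ ≤ _ := by gcongr

theorem inEdges_encard_le (A : Finset V) : (inEdges A).encard ≤ ((A.card * A.card : ℕ) : ℕ∞) := by
  have h : inEdges A ⊆ (fun p : V × V => s(p.1, p.2)) '' ((A ×ˢ A : Finset (V × V)) : Set (V × V)) := by
    intro e he
    induction e with
    | _ x y =>
      exact ⟨(x, y), by
        rw [Finset.mem_coe, Finset.mem_product]
        exact ⟨he.2 x (Sym2.mem_mk_left _ _), he.2 y (Sym2.mem_mk_right _ _)⟩, rfl⟩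
  refine (encard_le_encard h).trans ((encard_image_le _ _).trans ?_)
  rw [encard_coe_eq_coe_finsetCard, Finset.card_product]

theorem upper [DecidableEq V] (hM : M.E = (⊤ : SimpleGraph V).edgeSet)
    (hC : ∀ C : Set (Sym2 V), M.IsCircuit C ↔ C ∈ circuitSets P (⊤ : SimpleGraph V))
    (hm : 1 ≤ m) (hn : 1 ≤ n)
    (hK : Contains P (completeBipartiteGraph (Fin m) (Fin n))) :
    ∀ (k : ℕ) (A : Finset V), A.card = m + n - 1 + k →
    M.eRk (inEdges A) ≤ (((m + n - 1) * (m + n - 1) + k * (m - 1) : ℕ) : ℕ∞) := by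
  intro k
  induction k with
  | zero =>
    intro A hA
    refine (M.eRk_le_encard _).trans ((inEdges_encard_le A).trans ?_)
    rw [hA]
    norm_cast
    simp
  | succ k ih =>
    intro A hA
    obtain ⟨v, hv⟩ : A.Nonempty := by
      rw [← Finset.card_pos]; omega
    have h1 : (A.erase v).card = m + n - 1 + k := by
      rw [Finset.card_erase_of_mem hv]; omega
    have h2 := ih _ h1
    have h3 := step hM hC hm hn hK (A.erase v) v (Finset.notMem_erase v A) (by omega)
    rw [Finset.insert_erase hv] at h3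
    refine h3.trans ?_
    calc M.eRk (inEdges (A.erase v)) + ((m - 1 : ℕ) : ℕ∞)
        ≤ (((m + n - 1) * (m + n - 1) + k * (m - 1) : ℕ) : ℕ∞) + ((m - 1 : ℕ) : ℕ∞) := by gcongr
      _ = _ := by
        rw [← Nat.cast_add]
        congr 1
        ring

end

/-- The vertex set of the disjoint copies. -/
abbrev W (t m n : ℕ) : Type := Fin t × (Fin m ⊕ Fin n)

/-- The edges of the disjoint copies of `K_{m,n}` minus the edge `p0`. -/
def edg (t m n : ℕ) (p0 : Fin m × Fin n) (q : Fin t × {p : Fin m × Fin n // p ≠ p0}) :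
    Sym2 (W t m n) :=
  s((q.1, Sum.inl q.2.1.1), (q.1, Sum.inr q.2.1.2))

theorem edg_inj (t m n : ℕ) (p0 : Fin m × Fin n) : Function.Injective (edg t m n p0) := by
  rintro ⟨a, ⟨⟨i, j⟩, h⟩⟩ ⟨b, ⟨⟨k, l⟩, h'⟩⟩ he
  unfold edg at he
  rw [Sym2.eq_iff] at he
  simp at he
  obtain ⟨⟨rfl, rfl⟩, -, rfl⟩ := he
  rfl

theorem indep_edg {t m n : ℕ} {p0 : Fin m × Fin n} {P : ∀ k : ℕ, Set (SimpleGraph (Fin k))}
    (hP : IsMatroidalFamily P) {M : Matroid (Sym2 (W t m n))}
    (hM : M.E = (⊤ : SimpleGraph (W t m n)).edgeSet)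
    (hC : ∀ C : Set (Sym2 (W t m n)),
      M.IsCircuit C ↔ C ∈ circuitSets P (⊤ : SimpleGraph (W t m n)))
    (hK : Contains P (completeBipartiteGraph (Fin m) (Fin n))) :
    M.Indep (range (edg t m n p0)) := by
  have hE : range (edg t m n p0) ⊆ M.E := by
    rw [hM]
    rintro _ ⟨q, rfl⟩
    unfold edg
    rw [SimpleGraph.mem_edgeSet, SimpleGraph.top_adj]
    simp
  rw [Matroid.indep_iff_forall_subset_not_isCircuit hE]
  intro C hCs hCc
  have hCc' := (hC C).1 hCc
  obtain ⟨k, H, f, hH, -, rfl⟩ := hCc'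
  have hconn := hP.connected k H hH
  -- adjacent vertices lie in the same copy
  have hadj : ∀ x y, H.Adj x y → (f x).1 = (f y).1 := by
    intro x y hxy
    have h1 : s(f x, f y) ∈ (H.map f).edgeSet := by
      rw [SimpleGraph.mem_edgeSet, SimpleGraph.map_adj]
      exact ⟨x, y, hxy, rfl, rfl⟩
    obtain ⟨q, hq⟩ := hCs h1
    unfold edg at hq
    rw [Sym2.eq_iff] at hq
    rcases hq with ⟨h2, h3⟩ | ⟨h2, h3⟩
    · rw [← h2, ← h3]
    · rw [← h2, ← h3]
  have hconst : ∀ x y, (f x).1 = (f y).1 := by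
    intro x y
    obtain ⟨w⟩ := hconn.preconnected x y
    induction w with
    | nil => rfl
    | cons h _ ih => exact (hadj _ _ h).trans ih
  obtain ⟨x0⟩ := hconn.nonempty
  set a := (f x0).1 with ha
  let g : Fin m ⊕ Fin n ↪ W t m n := ⟨fun z => (a, z), fun z z' h => (Prod.ext_iff.1 h).2⟩
  have hcirc : M.IsCircuit (copyEdges g) := (hC _).2 (copy_mem hK g)
  have hmiss : s((a, Sum.inl p0.1), (a, Sum.inr p0.2)) ∈ copyEdges g := ⟨p0.1, p0.2, rfl⟩
  have hsub : (H.map f).edgeSet ⊆ copyEdges g := by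
    intro e he
    obtain ⟨q, rfl⟩ := hCs he
    unfold edg at he ⊢
    rw [SimpleGraph.mem_edgeSet, SimpleGraph.map_adj] at he
    obtain ⟨x, y, -, hx, hy⟩ := he
    have hqa : q.1 = a := by
      have : (f x).1 = q.1 := by rw [hx]
      rw [← this, ha]
      exact hconst x x0
    rw [hqa]
    exact ⟨q.2.1.1, q.2.1.2, rfl⟩
  have heq := hCc.eq_of_subset_isCircuit hcirc hsub
  rw [← heq] at hmiss
  obtain ⟨q, hq⟩ := hCs hmiss
  unfold edg at hq
  rw [Sym2.eq_iff] at hq
  simp at hq
  exact q.2.2 (Prod.ext hq.1.2 hq.2.2)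

/-- **Negative answer to Q1.**  If `m ≥ 1` and `n > m² - m + 1` (written `m² + 2 ≤ m + n`), no
matroidal family of graphs contains `K_{m,n}`.  In particular no matroidal family contains
`K_{3,8}`. -/
theorem result : ∀ m n : ℕ, 1 ≤ m → m ^ 2 + 2 ≤ m + n →
    ∀ P : (∀ k : ℕ, Set (SimpleGraph (Fin k))), IsMatroidalFamily P →
      ¬ Contains P (completeBipartiteGraph (Fin m) (Fin n)) := by
  classical
  intro m n hm hmn P hP hK
  have hn : 2 ≤ n := by nlinarith
  set s0 := m + n - 1 with hs0
  set t := s0 * s0 + 1 with ht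
  obtain ⟨M, hM, hC⟩ := hP.isMatroid (W t m n) ⊤
  let p0 : Fin m × Fin n := (⟨0, by omega⟩, ⟨0, by omega⟩)
  have hI := indep_edg (p0 := p0) hP hM hC hK
  have h1 := hI.encard_le_eRank
  have h2 : (range (edg t m n p0)).encard = ((t * (m * n - 1) : ℕ) : ℕ∞) := by
    rw [← image_univ, (edg_inj t m n p0).encard_image, encard_univ, ENat.card_eq_coe_fintype_card]
    congr 1
    rw [Fintype.card_prod, Fintype.card_fin]
    congr 1
    rw [Fintype.card_subtype_compl]
    simp
  have hcard : (Finset.univ : Finset (W t m n)).card = t * (m + n) := by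
    rw [Finset.card_univ, Fintype.card_prod, Fintype.card_sum]; simp
  have hle : s0 ≤ t * (m + n) := by
    have : s0 ≤ m + n := by omega
    nlinarith [Nat.zero_le (s0 * s0)]
  have h3 := upper hM hC hm (by omega) hK (t * (m + n) - s0) Finset.univ (by rw [hcard]; omega)
  have h4 : M.eRank = M.eRk (inEdges Finset.univ) := by
    rw [M.eRank_def, hM]
    congr 1
    rw [SimpleGraph.edgeSet_top]
    ext e
    simp [inEdges]
  rw [h4] at h1
  have h5 := h1.trans h3
  rw [h2] at h5
  have h6 : t * (m * n - 1) ≤ s0 * s0 + (t * (m + n) - s0) * (m - 1) := by exact_mod_cast h5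
  have h7 : (t * (m + n) - s0) * (m - 1) ≤ t * (m + n) * (m - 1) :=
    Nat.mul_le_mul_right _ (Nat.sub_le _ _)
  have h8 : t * (m * n - 1) < t + t * ((m + n) * (m - 1)) := by
    have h9 : s0 * s0 < t := by omega
    calc t * (m * n - 1) ≤ s0 * s0 + t * (m + n) * (m - 1) := by omega
      _ < t + t * (m + n) * (m - 1) := by omega
      _ = _ := by ring
  have h10 : 1 + (m + n) * (m - 1) ≤ m * n - 1 := by
    obtain ⟨k, rfl⟩ : ∃ k, m = k + 1 := ⟨m - 1, by omega⟩
    have e1 : k + 1 - 1 = k := by omega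
    rw [e1]
    have h11 : 1 + (k + 1 + n) * k + 1 ≤ (k + 1) * n := by nlinarith
    omega
  have h12 : t * (1 + (m + n) * (m - 1)) ≤ t * (m * n - 1) := Nat.mul_le_mul_left _ h10
  have h13 : t * (1 + (m + n) * (m - 1)) = t + t * ((m + n) * (m - 1)) := by ring
  omega

end Pool.Agent.Results.MP_41a700_co.NoKmn
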